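import Pool.Agent.Helper94.HT.Labels

/-! The colouring of the natural numbers by three colours. -/

namespace H94HT

open H81AE

/-- `cntA` counts the letters, if the labels are smaller than `c` -/
lemma cntA_eq' {e : ℕ → ℕ} {c : ℕ} (he : ∀ t, e t < c) : cntA e c = (A e (digits c)).card := by
  classical
  have key : A e (digits c) = ((Finset.range c) ×ˢ (Finset.range c)).filter
      (fun q => bex (fun b => bex (fun a => gapB c a b && LtB e a b q.1 q.2) b) c = true) := by
    ext ⟨v, z⟩
    rw [mem_A, Finset.mem_filter, Finset.mem_product, Finset.mem_range, Finset.mem_range, bex_iff]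
    constructor
    · rintro ⟨a, b, hg, hq⟩
      have hL := (lett_eq_iff e hg.2.2.1).1 hq
      have hb : b < c := (Finset.mem_range.1 (Finset.mem_filter.1 hg.2.1).1)
      have hab := hg.2.2.1
      obtain ⟨t, ht1, ht2, ht3⟩ := hL.2.1
      have h5 := he t
      have h6 := hL.1
      refine ⟨⟨by simp only; omega, by simp only; omega⟩, b, hb, ?_⟩
      rw [bex_iff]
      refine ⟨a, hab, ?_⟩
      rw [Bool.and_eq_true, gapB_iff hab, LtB_iff]
      exact ⟨hg, hL⟩
    · rintro ⟨_, b, hb, hh⟩
      rw [bex_iff] at hh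
      obtain ⟨a, hab, h⟩ := hh
      rw [Bool.and_eq_true, gapB_iff hab, LtB_iff] at h
      exact ⟨a, b, h.1, (lett_eq_iff e hab).2 h.2⟩
  rw [key]
  unfold cntA
  rw [bsum_eq, Finset.card_filter, Finset.sum_product]
  refine Finset.sum_congr rfl fun v _ => ?_
  rw [cnt_eq, Finset.card_filter]

/-- the position of the lowest binary digit -/
def low (c : ℕ) : ℕ := cnt (fun i => ball (fun j => !c.testBit j) (i + 1)) c

lemma low_eq {c m : ℕ} (hm : c.testBit m = true) (hm' : ∀ j < m, c.testBit j = false) :
    low c = m := by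
  unfold low
  rw [cnt_eq]
  have h1 : 2 ^ m ≤ c := Nat.ge_two_pow_of_testBit hm
  have h2 : m < 2 ^ m := Nat.lt_two_pow_self
  have : (Finset.range c).filter (fun i => ball (fun j => !c.testBit j) (i + 1) = true)
      = Finset.range m := by
    ext i
    rw [Finset.mem_filter, Finset.mem_range, Finset.mem_range, ball_iff]
    constructor
    · rintro ⟨_, h⟩
      by_contra hc
      have := h m (by omega)
      rw [hm] at this
      exact absurd this (by simp)
    · intro hi
      refine ⟨by omega, fun j hj => ?_⟩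
      rw [hm' j (by omega)]
      rfl
  rw [this, Finset.card_range]

lemma low_spec {c : ℕ} (hc : 1 ≤ c) : c.testBit (low c) = true ∧ ∀ j < low c, c.testBit j = false := by
  classical
  obtain ⟨i, hi⟩ := Nat.exists_testBit_of_ne_zero (show c ≠ 0 by omega)
  have hex : ∃ i, c.testBit i = true := ⟨i, hi⟩
  have h1 := Nat.find_spec hex
  have h2 : ∀ j < Nat.find hex, c.testBit j = false := fun j hj => by
    have := Nat.find_min hex hj
    simpa using this
  rw [low_eq h1 h2]
  exact ⟨h1, h2⟩

lemma low_lt {c : ℕ} (hc : 1 ≤ c) : low c < c :=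
  lt_of_lt_of_le Nat.lt_two_pow_self (Nat.ge_two_pow_of_testBit (low_spec hc).1)

lemma two_pow_low_le {c : ℕ} (hc : 1 ≤ c) : 2 ^ low c ≤ c :=
  Nat.ge_two_pow_of_testBit (low_spec hc).1

lemma low_le_max {c : ℕ} (hc : 1 ≤ c) (hne : (digits c).Nonempty) :
    low c ≤ (digits c).max' hne :=
  Finset.le_max' _ _ (mem_digits.2 (low_spec hc).1)

lemma low_add {c c' N : ℕ} (hc : 1 ≤ c) (h : c < 2 ^ N) (h' : 2 ^ N ∣ c') :
    low (c + c') = low c := by
  obtain ⟨h1, h2⟩ := low_spec hc
  have hd := digits_add h h'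
  have hlow : low c < N := by
    have h3 : 2 ^ low c < 2 ^ N := lt_of_le_of_lt (two_pow_low_le hc) h
    exact (Nat.pow_lt_pow_iff_right (by norm_num)).1 h3
  apply low_eq
  · rw [← mem_digits, hd]
    exact Finset.mem_union_left _ (mem_digits.2 h1)
  · intro j hj
    rw [Bool.eq_false_iff]
    intro hc'
    rw [← mem_digits, hd] at hc'
    rcases Finset.mem_union.1 hc' with h3 | h3
    · have := h2 j hj
      rw [mem_digits] at h3
      rw [h3] at this
      exact absurd this (by simp)
    · have := le_of_mem_digits h' h3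
      omega

section
attribute [local irreducible] bex ball cnt bsum

lemma comp_low : Computable low := by
  unfold low
  refine comp_cnt (f := fun (c : ℕ) i => ball (fun j => !c.testBit j) (i + 1)) ?_ Computable.id
  refine comp_ball (α := ℕ × ℕ) (f := fun p j => !p.1.testBit j) ?_ (comp_succ Computable.snd)
  exact comp_not (comp_testBit.comp (Computable.fst.comp Computable.fst) Computable.snd)

end

/-- the number of letters modulo `3`, for the labels of the level given by the lowest digit -/
def colN (R : ℕ → ℕ → ℕ → Bool) (c : ℕ) : ℕ := cntA (E R (low c)) c % 3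

/-- the colouring -/
def col (R : ℕ → ℕ → ℕ → Bool) (c : ℕ) : Fin 3 := ⟨colN R c, Nat.mod_lt _ (by norm_num)⟩

theorem comp_col {R : ℕ → ℕ → ℕ → Bool}
    (hR : Computable (fun p : ℕ × ℕ × ℕ => R p.1 p.2.1 p.2.2)) : Computable (col R) := by
  have h1 : Computable (fun c => cntA (E R (low c)) c) :=
    (comp_cntA (comp_E hR)).comp comp_low Computable.id
  have hfin : Primrec (fun m : ℕ => (⟨m % 3, Nat.mod_lt _ (by norm_num)⟩ : Fin 3)) := by
    have hc : Primrec (fun m : ℕ => (m % 3 : ℕ)) :=
      Primrec.nat_mod.comp Primrec.id (Primrec.const 3)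
    exact (Primrec.fin_val_iff).1 hc
  exact hfin.to_comp.comp h1

lemma colN_eq {R : ℕ → ℕ → ℕ → Bool} {c : ℕ} (hc : 1 ≤ c) :
    colN R c = (A (E R (low c)) (digits c)).card % 3 := by
  unfold colN
  rw [cntA_eq' (fun t => lt_of_lt_of_le (E_lt (low c) t) (two_pow_low_le hc))]

lemma colN_add {R : ℕ → ℕ → ℕ → Bool} {c c' N : ℕ} (hc : 1 ≤ c) (h : c < 2 ^ N)
    (h' : 2 ^ N ∣ c') :
    colN R (c + c') = (A (E R (low c)) (digits c ∪ digits c')).card % 3 := by
  rw [colN_eq (by omega), low_add hc h h', digits_add h h']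

end H94HT
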