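import Pool.Agent.H81AE.Color

/-! Distinct letters modulo 3, for a block followed by three far blocks. -/

namespace H94HT

open Finset H81AE

/-- `k` is the lim inf of the labels, and `z` the start of the last component of labels at least
`k`. -/
structure FinalL (e : ℕ → ℕ) (k z : ℕ) : Prop where
  inf : ∀ T, ∃ t, T ≤ t ∧ e t = k
  ge : ∀ t, z ≤ t → k ≤ e t
  st : z = 0 ∨ e (z - 1) < k

variable {e : ℕ → ℕ} {k z : ℕ}

lemma inter_eq (h : FinalL e k z) {D E : Finset ℕ} {M N : ℕ} (hA : Above D E M N)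
    (hzN : z ≤ N) (hev : ∃ t, M < t ∧ t ≤ N ∧ e t = k) {q : ℕ × ℕ} (h1 : q ∈ A e D)
    (h2 : q ∈ A e E) : q = (k, z) := by
  obtain ⟨a, b, hg, hq⟩ := mem_A.1 h1
  obtain ⟨a', b', hg', hq'⟩ := mem_A.1 h2
  have hL := lett_spec e hg.2.2.1
  have hL' := lett_spec e hg'.2.2.1
  rw [hq] at hL
  rw [hq'] at hL'
  have hNa' := hA.hN' a' hg'.1
  by_cases hk : q.1 = k
  · have ht := hL'.2.1
    rw [hk] at ht
    rw [← hq']
    exact lett_eq_kappa h.ge h.st hg'.2.2.1 (by omega) ht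
  · exfalso
    have hkv : k < q.1 := by
      obtain ⟨t, ht1, ht2, ht3⟩ := hL'.2.1
      have := h.ge t (by omega)
      omega
    obtain ⟨t, ht1, ht2, ht3⟩ := hev
    have h3 : q.2 ≤ a + 1 := hL.1
    have h4 : a < b := hg.2.2.1
    have h5 := hA.hM' b hg.2.1
    have h6 := hA.hN' b' hg'.2.1
    have := hL'.2.2.1 t (by omega) (by omega)
    omega

open Classical in
/-- indicator that the final letter occurs -/
noncomputable def ind (e : ℕ → ℕ) (k z : ℕ) (D : Finset ℕ) : ℕ := if (k, z) ∈ A e D then 1 else 0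

lemma ind_le (D : Finset ℕ) : ind e k z D ≤ 1 := by
  unfold ind; split <;> omega

lemma ind_eq_one {D : Finset ℕ} : ind e k z D = 1 ↔ (k, z) ∈ A e D := by
  unfold ind; split <;> simp [*]

lemma card_erase_ind (D : Finset ℕ) :
    ((A e D).erase (k, z)).card + ind e k z D = (A e D).card := by
  unfold ind
  by_cases h : (k, z) ∈ A e D
  · rw [if_pos h]; exact Finset.card_erase_add_one h
  · rw [if_neg h, Finset.erase_eq_of_notMem h]; rfl

lemma case1 (h : FinalL e k z) {D E : Finset ℕ} {M N : ℕ} (hA : Above D E M N)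
    (hzM : z ≤ M + 1) (hev : ∃ t, M < t ∧ t ≤ N ∧ e t = k) :
    (A e (D ∪ E)).card + ind e k z D + ind e k z E = (A e D).card + (A e E).card + 1 ∧
      (k, z) ∈ A e (D ∪ E) := by
  have hMN := hA.hMN
  have hκ : lett e M N = (k, z) := lett_eq_kappa h.ge h.st hMN hzM hev
  have hU := A_union (e := e) hA
  rw [hκ] at hU
  have hmem : (k, z) ∈ A e (D ∪ E) := by rw [hU]; exact Finset.mem_insert_self _ _
  refine ⟨?_, hmem⟩
  have e1 : (A e (D ∪ E)).erase (k, z) = (A e D).erase (k, z) ∪ (A e E).erase (k, z) := by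
    rw [hU]
    ext q
    simp only [Finset.mem_erase, Finset.mem_insert, Finset.mem_union]
    tauto
  have e2 : Disjoint ((A e D).erase (k, z)) ((A e E).erase (k, z)) := by
    rw [Finset.disjoint_left]
    intro q hq1 hq2
    rw [Finset.mem_erase] at hq1 hq2
    exact hq1.1 (inter_eq h hA (by omega) hev hq1.2 hq2.2)
  have e3 := Finset.card_erase_add_one hmem
  rw [e1, Finset.card_union_of_disjoint e2] at e3
  have e4 := card_erase_ind (e := e) (k := k) (z := z) D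
  have e5 := card_erase_ind (e := e) (k := k) (z := z) E
  omega

lemma case2 (h : FinalL e k z) {D E : Finset ℕ} {M N : ℕ} (hA : Above D E M N)
    (hzM : M + 2 ≤ z) (hzN : z ≤ N) (hev : ∃ t, M < t ∧ t ≤ N ∧ e t = k) :
    (lett e M N ∈ A e D → (A e (D ∪ E)).card = (A e D).card + (A e E).card) ∧
    (lett e M N ∉ A e D → (A e (D ∪ E)).card = (A e D).card + (A e E).card + 1) := by
  have hMN := hA.hMN
  have hU := A_union (e := e) hA
  have hnκ : (k, z) ∉ A e D := by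
    intro hm
    obtain ⟨a, b, hg, hq⟩ := mem_A.1 hm
    have hL := lett_spec e hg.2.2.1
    rw [hq] at hL
    have h3 : z ≤ a + 1 := hL.1
    have h4 : a < b := hg.2.2.1
    have h5 := hA.hM' b hg.2.1
    omega
  have hdisj : Disjoint (A e D) (A e E) := by
    rw [Finset.disjoint_left]
    intro q hq1 hq2
    have := inter_eq h hA hzN hev hq1 hq2
    rw [this] at hq1
    exact hnκ hq1
  have hJ : lett e M N ∉ A e E := by
    intro hm
    obtain ⟨a, b, hg, hq⟩ := mem_A.1 hm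
    have hL := lett_spec e hg.2.2.1
    rw [hq] at hL
    obtain ⟨t, ht1, ht2, ht3⟩ := hL.2.1
    have hNa := hA.hN' a hg.1
    have h7 := h.ge t (by omega)
    have hS := lett_spec e hMN
    have h8 := hS.2.2.1 (z - 1) (by have := hS.1; omega) (by omega)
    rcases h.st with h9 | h9
    · omega
    · omega
  constructor
  · intro hm
    rw [hU, Finset.insert_eq_of_mem (Finset.mem_union_left _ hm), Finset.card_union_of_disjoint hdisj]
  · intro hm
    rw [hU, Finset.card_insert_of_notMem, Finset.card_union_of_disjoint hdisj]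
    rw [Finset.mem_union, not_or]
    exact ⟨hm, hJ⟩

/-- the letter of `(M, N]` does not depend on `N` for large `N` -/
lemma lett_stable (e : ℕ → ℕ) (M : ℕ) : ∃ N₀, ∀ N, N₀ ≤ N → lett e M N = lett e M N₀ := by
  classical
  have hne : ∃ v, ∃ t, M < t ∧ e t = v := ⟨e (M + 1), M + 1, by omega, rfl⟩
  set v := Nat.find hne with hv
  obtain ⟨t, ht, hte⟩ := Nat.find_spec hne
  have hmin : ∀ t', M < t' → v ≤ e t' := fun t' ht' => Nat.find_min' hne ⟨t', ht', rfl⟩
  refine ⟨t, fun N hN => ?_⟩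
  have hS := lett_spec e (show M < t from ht)
  have hval : (lett e M t).1 = v := by
    obtain ⟨t', h1, h2, h3⟩ := hS.2.1
    have h4 := hmin t' h1
    have h5 := hS.2.2.1 t (by have := hS.1; omega) le_rfl
    omega
  have := (lett_eq_iff e (show M < N by omega) (v := (lett e M t).1) (z := (lett e M t).2)).2 (by
    refine ⟨hS.1, ?_, ?_, hS.2.2.2⟩
    · obtain ⟨t', h1, h2, h3⟩ := hS.2.1
      exact ⟨t', h1, by omega, h3⟩
    · intro t' h1 h2
      by_cases h3 : t' ≤ t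
      · exact hS.2.2.1 t' h1 h3
      · rw [hval]; exact hmin t' (by omega))
  rw [this]

/-- the hypothesis on the colours -/
def Rich (F : Finset ℕ → ℕ) (D : Finset ℕ) : Prop :=
  ∀ N₁, ∃ E₁ : Finset ℕ, E₁.Nonempty ∧ (∀ d ∈ E₁, N₁ ≤ d) ∧ F (D ∪ E₁) = F D ∧
    ∀ N₂, ∃ E₂ : Finset ℕ, E₂.Nonempty ∧ (∀ d ∈ E₂, N₂ ≤ d) ∧ F (D ∪ E₂) = F D ∧
      F (D ∪ (E₁ ∪ E₂)) = F D ∧
      ∀ N₃, ∃ E₃ : Finset ℕ, E₃.Nonempty ∧ (∀ d ∈ E₃, N₃ ≤ d) ∧ F (D ∪ E₃) = F D ∧
        F (D ∪ (E₁ ∪ E₃)) = F D ∧ F (D ∪ (E₂ ∪ E₃)) = F D ∧ F (D ∪ ((E₁ ∪ E₂) ∪ E₃)) = F D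

lemma above_union {D E₁ E₂ : Finset ℕ} {M N M₁ N₁ : ℕ} (h : Above D E₁ M N)
    (h1 : Above E₁ E₂ M₁ N₁) : Above D (E₁ ∪ E₂) M N where
  hM := h.hM
  hM' := h.hM'
  hN := Finset.mem_union_left _ h.hN
  hN' := by
    intro d hd
    rcases Finset.mem_union.1 hd with hd | hd
    · exact h.hN' d hd
    · have h2 := h1.hN' d hd
      have h3 := h1.hMN
      have h4 := h.hN' _ h1.hM
      omega
  hMN := h.hMN

lemma union_above {E₁ E₂ E₃ : Finset ℕ} {M₁ N₂ M₂ N₃ : ℕ} (h12 : Above E₁ E₂ M₁ N₂)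
    (h23 : Above E₂ E₃ M₂ N₃) : Above (E₁ ∪ E₂) E₃ M₂ N₃ where
  hM := Finset.mem_union_right _ h23.hM
  hM' := by
    intro d hd
    rcases Finset.mem_union.1 hd with hd | hd
    · have h2 := h12.hM' d hd
      have h3 := h12.hMN
      have h4 := h12.hN' _ h23.hM
      omega
    · exact h23.hM' d hd
  hN := h23.hN
  hN' := h23.hN'
  hMN := h23.hMN

theorem core (h : FinalL e k z) {D : Finset ℕ} (hne : D.Nonempty)
    (H : Rich (fun D => (A e D).card % 3) D) :
    z ≤ D.max' hne + 1 ∧ (k, z) ∈ A e D := by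
  classical
  set M := D.max' hne with hM
  obtain ⟨P, hP⟩ := lett_stable e M
  obtain ⟨t₀, ht₀, ht₀'⟩ := h.inf (max (M + 1) (max z P))
  have hx1 : M + 1 ≤ t₀ := le_trans (le_max_left _ _) ht₀
  have hx2 : z ≤ t₀ := le_trans (le_trans (le_max_left _ _) (le_max_right _ _)) ht₀
  have hx3 : P ≤ t₀ := le_trans (le_trans (le_max_right _ _) (le_max_right _ _)) ht₀
  obtain ⟨E₁, hne1, hE1, hF1, H1⟩ := H t₀
  set M₁ := E₁.max' hne1 with hM1
  obtain ⟨t₁, ht₁, ht₁'⟩ := h.inf (max (M₁ + 1) t₀)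
  have hy1 : M₁ + 1 ≤ t₁ := le_trans (le_max_left _ _) ht₁
  have hy2 : t₀ ≤ t₁ := le_trans (le_max_right _ _) ht₁
  obtain ⟨E₂, hne2, hE2, hF2, hF12, H2⟩ := H1 t₁
  set M₂ := E₂.max' hne2 with hM2
  obtain ⟨t₂, ht₂, ht₂'⟩ := h.inf (max (M₂ + 1) t₁)
  have hw1 : M₂ + 1 ≤ t₂ := le_trans (le_max_left _ _) ht₂
  have hw2 : t₁ ≤ t₂ := le_trans (le_max_right _ _) ht₂
  obtain ⟨E₃, hne3, hE3, hF3, hF13, hF23, hF123⟩ := H2 t₂
  set N₁ := E₁.min' hne1 with hN1
  set N₂ := E₂.min' hne2 with hN2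
  set N₃ := E₃.min' hne3 with hN3
  have n1 : t₀ ≤ N₁ := hE1 _ (Finset.min'_mem _ _)
  have n2 : t₁ ≤ N₂ := hE2 _ (Finset.min'_mem _ _)
  have n3 : t₂ ≤ N₃ := hE3 _ (Finset.min'_mem _ _)
  have m1 : ∀ d ∈ D, d ≤ M := fun d hd => Finset.le_max' _ d hd
  have m2 : ∀ d ∈ E₁, d ≤ M₁ := fun d hd => Finset.le_max' _ d hd
  have m3 : ∀ d ∈ E₂, d ≤ M₂ := fun d hd => Finset.le_max' _ d hd
  have l1 : ∀ d ∈ E₁, N₁ ≤ d := fun d hd => Finset.min'_le _ d hd
  have l2 : ∀ d ∈ E₂, N₂ ≤ d := fun d hd => Finset.min'_le _ d hd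
  have l3 : ∀ d ∈ E₃, N₃ ≤ d := fun d hd => Finset.min'_le _ d hd
  have AD1 : Above D E₁ M N₁ := ⟨Finset.max'_mem _ _, m1, Finset.min'_mem _ _, l1, by omega⟩
  have AD2 : Above D E₂ M N₂ := ⟨Finset.max'_mem _ _, m1, Finset.min'_mem _ _, l2, by omega⟩
  have AD3 : Above D E₃ M N₃ := ⟨Finset.max'_mem _ _, m1, Finset.min'_mem _ _, l3, by omega⟩
  have A12 : Above E₁ E₂ M₁ N₂ := ⟨Finset.max'_mem _ _, m2, Finset.min'_mem _ _, l2, by omega⟩
  have hN1M1 : N₁ ≤ M₁ := Finset.min'_le _ _ (Finset.max'_mem _ _)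
  have hN2M2 : N₂ ≤ M₂ := Finset.min'_le _ _ (Finset.max'_mem _ _)
  have A13 : Above E₁ E₃ M₁ N₃ := ⟨Finset.max'_mem _ _, m2, Finset.min'_mem _ _, l3, by omega⟩
  have A23 : Above E₂ E₃ M₂ N₃ := ⟨Finset.max'_mem _ _, m3, Finset.min'_mem _ _, l3, by omega⟩
  have AD12 := above_union AD1 A12
  have AD13 := above_union AD1 A13
  have AD23 := above_union AD2 A23
  have A123 := union_above A12 A23
  have AD123 : Above D ((E₁ ∪ E₂) ∪ E₃) M N₁ := above_union AD12 A123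
  -- relations between the far blocks
  have r12 := case1 h A12 (by omega) ⟨t₁, by omega, by omega, ht₁'⟩
  have r13 := case1 h A13 (by omega) ⟨t₁, by omega, by omega, ht₁'⟩
  have r23 := case1 h A23 (by omega) ⟨t₂, by omega, by omega, ht₂'⟩
  have r123 := case1 h A123 (by omega) ⟨t₂, by omega, by omega, ht₂'⟩
  have i12 := ind_eq_one.2 r12.2
  have i13 := ind_eq_one.2 r13.2
  have i23 := ind_eq_one.2 r23.2
  have i123 := ind_eq_one.2 r123.2
  have b1 := ind_le (e := e) (k := k) (z := z) E₁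
  have b2 := ind_le (e := e) (k := k) (z := z) E₂
  have b3 := ind_le (e := e) (k := k) (z := z) E₃
  have b0 := ind_le (e := e) (k := k) (z := z) D
  simp only at hF1 hF2 hF3 hF12 hF13 hF23 hF123
  have hev : ∀ N, t₀ ≤ N → ∃ t, M < t ∧ t ≤ N ∧ e t = k := fun N hN => ⟨t₀, by omega, hN, ht₀'⟩
  by_cases hz : z ≤ M + 1
  · refine ⟨hz, ?_⟩
    have c1 := case1 h AD1 hz (hev _ n1)
    have c2 := case1 h AD2 hz (hev _ (by omega))
    have c12 := case1 h AD12 hz (hev _ n1)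
    have key : ind e k z D = 1 := by omega
    exact ind_eq_one.1 key
  · exfalso
    have hz' : M + 2 ≤ z := by omega
    have c1 := case2 h AD1 hz' (by omega) (hev _ n1)
    have c2 := case2 h AD2 hz' (by omega) (hev _ (by omega))
    have c3 := case2 h AD3 hz' (by omega) (hev _ (by omega))
    have c12 := case2 h AD12 hz' (by omega) (hev _ n1)
    have c13 := case2 h AD13 hz' (by omega) (hev _ n1)
    have c23 := case2 h AD23 hz' (by omega) (hev _ (by omega))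
    have c123 := case2 h AD123 hz' (by omega) (hev _ n1)
    rw [hP N₁ (by omega)] at c1 c12 c13 c123
    rw [hP N₂ (by omega)] at c2 c23
    rw [hP N₃ (by omega)] at c3
    by_cases hJ : lett e M P ∈ A e D
    · have c1 := c1.1 hJ
      have c2 := c2.1 hJ
      have c3 := c3.1 hJ
      have c12 := c12.1 hJ
      have c13 := c13.1 hJ
      have c23 := c23.1 hJ
      have c123 := c123.1 hJ
      omega
    · have c1 := c1.2 hJ
      have c2 := c2.2 hJ
      have c3 := c3.2 hJ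
      have c12 := c12.2 hJ
      have c13 := c13.2 hJ
      have c23 := c23.2 hJ
      have c123 := c123.2 hJ
      omega

end H94HT
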