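import Mathlib.Computability.TuringDegree
import Mathlib.Computability.Halting
import Mathlib.Tactic

/-! Total functions recursive in an oracle. -/

namespace H94HT

/-- the total function `f` is recursive in the oracles `O` -/
def TR (O : Set (ℕ →. ℕ)) (f : ℕ → ℕ) : Prop := Nat.RecursiveIn O (fun n => Part.some (f n))

variable {O : Set (ℕ →. ℕ)}

lemma TR.of_eq {f g : ℕ → ℕ} (hf : TR O f) (h : ∀ n, f n = g n) : TR O g := by
  have : f = g := funext h
  rw [← this]; exact hf

lemma TR.of_comp {f : ℕ → ℕ} (hf : Computable f) : TR O f := by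
  have h : Nat.Partrec (fun n => Part.some (f n)) := Partrec.nat_iff.1 hf
  exact h.recursiveIn

lemma TR.oracle {f : ℕ → ℕ} : TR {fun n => Part.some (f n)} f :=
  Nat.RecursiveIn.oracle _ rfl

lemma TR.comp {f g : ℕ → ℕ} (hf : TR O f) (hg : TR O g) : TR O (fun n => f (g n)) := by
  refine Nat.RecursiveIn.of_eq (Nat.RecursiveIn.comp hf hg) (fun n => ?_)
  exact Part.bind_some _ _

lemma TR.pair {f g : ℕ → ℕ} (hf : TR O f) (hg : TR O g) : TR O (fun n => Nat.pair (f n) (g n)) := by
  refine Nat.RecursiveIn.of_eq (Nat.RecursiveIn.pair hf hg) (fun n => ?_)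
  simp [Seq.seq]

lemma TR.id : TR O (fun n => n) := TR.of_comp Computable.id

lemma TR.prec {f h : ℕ → ℕ} (hf : TR O f) (hh : TR O h) :
    TR O (fun p => Nat.rec (f (Nat.unpair p).1)
      (fun y i => h (Nat.pair (Nat.unpair p).1 (Nat.pair y i))) (Nat.unpair p).2) := by
  refine Nat.RecursiveIn.of_eq (Nat.RecursiveIn.prec hf hh) (fun p => ?_)
  simp only
  induction (Nat.unpair p).2 with
  | zero => rfl
  | succ n ih =>
    simp only at ih ⊢
    rw [ih]
    simp

lemma TR.rfind {f : ℕ → ℕ} (hf : TR O f) (hex : ∀ a, ∃ n, f (Nat.pair a n) = 0) :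
    ∃ g : ℕ → ℕ, TR O g ∧ ∀ a, f (Nat.pair a (g a)) = 0 := by
  classical
  refine ⟨fun a => Nat.find (hex a), ?_, fun a => Nat.find_spec (hex a)⟩
  refine Nat.RecursiveIn.of_eq (Nat.RecursiveIn.rfind hf) (fun a => ?_)
  rw [Part.eq_some_iff, Nat.mem_rfind]
  refine ⟨?_, fun {m} hm => ?_⟩
  · simp [Nat.find_spec (hex a)]
  · have := Nat.find_min (hex a) hm
    simp [this]

/-- Search for a pair of values of `g` which passes a computable test. -/
theorem search {g χ test out : ℕ → ℕ} (hg : TR O g) (ht : Computable test) (ho : Computable out)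
    (hex : ∀ n, ∃ a b, test (Nat.pair n (Nat.pair (g a) (g b))) = 0)
    (hout : ∀ n a b, test (Nat.pair n (Nat.pair (g a) (g b))) = 0 →
      out (Nat.pair n (Nat.pair (g a) (g b))) = χ n) : TR O χ := by
  have hl : TR O (fun x => (Nat.unpair x).1) := Nat.RecursiveIn.left
  have hr : TR O (fun x => (Nat.unpair x).2) := Nat.RecursiveIn.right
  have hK : TR O (fun x => Nat.pair (Nat.unpair x).1 (Nat.pair (g (Nat.unpair (Nat.unpair x).2).1)
      (g (Nat.unpair (Nat.unpair x).2).2))) :=
    hl.pair ((hg.comp (hl.comp hr)).pair (hg.comp (hr.comp hr)))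
  obtain ⟨s, hs, hs'⟩ := TR.rfind ((TR.of_comp ht).comp hK) (by
    intro n
    obtain ⟨a, b, hab⟩ := hex n
    refine ⟨Nat.pair a b, ?_⟩
    simpa using hab)
  have h2 := ((TR.of_comp ho).comp hK).comp (TR.id.pair hs)
  refine h2.of_eq (fun n => ?_)
  have h3 := hs' n
  simp only [Nat.unpair_pair] at h3 ⊢
  exact hout n _ _ h3

end H94HT
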