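import Pool.Agent.Helper94.HT.Colour
import Pool.Agent.Helper94.HT.Turing

/-! Decoding from two rich numbers. -/

namespace H94HT

open H81AE

/-- `n` and three far numbers have sums of the same colour -/
def RichN (c : ℕ → ℕ) (n : ℕ) : Prop :=
  ∀ N₁, ∃ m₁, 1 ≤ m₁ ∧ 2 ^ N₁ ∣ m₁ ∧ c (n + m₁) = c n ∧
    ∀ N₂, ∃ m₂, 1 ≤ m₂ ∧ 2 ^ N₂ ∣ m₂ ∧ c (n + m₂) = c n ∧ c (n + (m₁ + m₂)) = c n ∧
      ∀ N₃, ∃ m₃, 1 ≤ m₃ ∧ 2 ^ N₃ ∣ m₃ ∧ c (n + m₃) = c n ∧ c (n + (m₁ + m₃)) = c n ∧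
        c (n + (m₂ + m₃)) = c n ∧ c (n + (m₁ + m₂ + m₃)) = c n

lemma lt_two_pow_of_le {n N : ℕ} (h : n ≤ N) : n < 2 ^ N :=
  lt_of_lt_of_le Nat.lt_two_pow_self (Nat.pow_le_pow_right (by norm_num) h)

lemma dvd_of_le_pow {m N M : ℕ} (h : 2 ^ M ∣ m) (hNM : N ≤ M) : 2 ^ N ∣ m :=
  dvd_trans (pow_dvd_pow 2 hNM) h

lemma rich_of_richN {R : ℕ → ℕ → ℕ → Bool} {n : ℕ} (hn : 1 ≤ n) (H : RichN (colN R) n) :
    Rich (fun D => (A (E R (low n)) D).card % 3) (digits n) := by
  intro N₁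
  obtain ⟨m₁, hm₁, d₁, c₁, H₁⟩ := H (N₁ + n)
  have e1 : n < 2 ^ (N₁ + n) := lt_two_pow_of_le (by omega)
  have hcol : ∀ m N, n ≤ N → 2 ^ N ∣ m → colN R (n + m) = colN R n →
      (A (E R (low n)) (digits n ∪ digits m)).card % 3 = (A (E R (low n)) (digits n)).card % 3 := by
    intro m N hN hm h
    rw [← colN_add hn (lt_two_pow_of_le hN) hm, h, colN_eq hn]
  refine ⟨digits m₁, digits_nonempty hm₁, fun d hd => ?_, hcol m₁ (N₁ + n) (by omega) d₁ c₁,
    fun N₂ => ?_⟩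
  · have := le_of_mem_digits d₁ hd
    omega
  obtain ⟨m₂, hm₂, d₂, c₂, c₁₂, H₂⟩ := H₁ (N₂ + n + m₁)
  have s12 : digits (m₁ + m₂) = digits m₁ ∪ digits m₂ :=
    digits_add (lt_two_pow_of_le (by omega : m₁ ≤ N₂ + n + m₁)) d₂
  have d₂' : 2 ^ n ∣ m₂ := dvd_of_le_pow d₂ (by omega)
  have d₁' : 2 ^ n ∣ m₁ := dvd_of_le_pow d₁ (by omega)
  refine ⟨digits m₂, digits_nonempty hm₂, fun d hd => ?_, hcol m₂ _ (by omega) d₂ c₂, ?_,
    fun N₃ => ?_⟩
  · have := le_of_mem_digits d₂ hd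
    omega
  · simp only
    rw [← s12]
    exact hcol (m₁ + m₂) n le_rfl (dvd_add d₁' d₂') c₁₂
  obtain ⟨m₃, hm₃, d₃, c₃, c₁₃, c₂₃, c₁₂₃⟩ := H₂ (N₃ + n + m₁ + m₂)
  have s13 : digits (m₁ + m₃) = digits m₁ ∪ digits m₃ :=
    digits_add (lt_two_pow_of_le (by omega : m₁ ≤ N₃ + n + m₁ + m₂)) d₃
  have s23 : digits (m₂ + m₃) = digits m₂ ∪ digits m₃ :=
    digits_add (lt_two_pow_of_le (by omega : m₂ ≤ N₃ + n + m₁ + m₂)) d₃
  have s123 : digits (m₁ + m₂ + m₃) = (digits m₁ ∪ digits m₂) ∪ digits m₃ := by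
    rw [digits_add (lt_two_pow_of_le (by omega : m₁ + m₂ ≤ N₃ + n + m₁ + m₂)) d₃, s12]
  have d₃' : 2 ^ n ∣ m₃ := dvd_of_le_pow d₃ (by omega)
  refine ⟨digits m₃, digits_nonempty hm₃, fun d hd => ?_, hcol m₃ _ (by omega) d₃ c₃, ?_, ?_, ?_⟩
  · have := le_of_mem_digits d₃ hd
    omega
  · simp only
    rw [← s13]
    exact hcol _ n le_rfl (dvd_add d₁' d₃') c₁₃
  · simp only
    rw [← s23]
    exact hcol _ n le_rfl (dvd_add d₂' d₃') c₂₃
  · simp only
    rw [← s123]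
    exact hcol _ n le_rfl (dvd_add (dvd_add d₁' d₂') d₃') c₁₂₃

lemma mem_digits_lt {n N b : ℕ} (h : n < 2 ^ N) (hb : b ∈ digits n) : b < N := by
  have h1 : 2 ^ b ≤ n := Nat.ge_two_pow_of_testBit (mem_digits.1 hb)
  exact (Nat.pow_lt_pow_iff_right (by norm_num)).1 (lt_of_le_of_lt h1 h)

lemma good_core {R : ℕ → ℕ → ℕ → Bool} {n : ℕ} (hn : 1 ≤ n) (H : RichN (colN R) n) :
    (∀ t, n < 2 ^ t → fv R (low n) ≤ E R (low n) t) ∧
      ∃ a b t, a ∈ digits n ∧ b ∈ digits n ∧ a < t ∧ t ≤ b ∧ E R (low n) t = fv R (low n) := by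
  obtain ⟨z, hz⟩ := exists_finalL (R := R) (low n)
  have hne := digits_nonempty hn
  obtain ⟨h1, h2⟩ := core hz hne (rich_of_richN hn H)
  constructor
  · intro t ht
    apply hz.ge
    have := mem_digits_lt ht (Finset.max'_mem _ hne)
    omega
  · obtain ⟨a, b, hg, hl⟩ := mem_A.1 h2
    have hL := lett_spec (E R (low n)) hg.2.2.1
    rw [hl] at hL
    obtain ⟨t, ht1, ht2, ht3⟩ := hL.2.1
    exact ⟨a, b, t, hg.1, hg.2.1, ht1, ht2, ht3⟩

theorem decode {R : ℕ → ℕ → ℕ → Bool} {s n₁ n₂ N : ℕ} (h1 : 1 ≤ n₁) (h2 : 1 ≤ n₂)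
    (H1 : RichN (colN R) n₁) (H2 : RichN (colN R) n₂) (hs : s ≤ low n₁) (hN : n₁ < 2 ^ N)
    (hN' : 2 ^ N ∣ n₂) :
    (∀ t, n₁ < 2 ^ t → fv R s ≤ E R s t) ∧ ∃ t, n₁ < 2 ^ t ∧ 2 ^ t ≤ n₂ ∧ E R s t = fv R s := by
  obtain ⟨g1, _⟩ := good_core h1 H1
  obtain ⟨_, a, b, t, ha, hb, hat, htb, hE⟩ := good_core h2 H2
  constructor
  · intro t ht
    have h3 := g1 t ht
    obtain ⟨d, hd⟩ := Nat.exists_eq_add_of_le hs
    rw [hd] at h3
    rw [← E_div (R := R) s d t, ← fv_div (R := R) s d]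
    exact Nat.div_le_div_right h3
  · have haN := le_of_mem_digits hN' ha
    have hlow : s ≤ low n₂ := by
      have h4 := mem_digits_lt hN (mem_digits.2 (low_spec h1).1)
      have h5 := le_of_mem_digits hN' (mem_digits.2 (low_spec h2).1)
      omega
    obtain ⟨d, hd⟩ := Nat.exists_eq_add_of_le hlow
    refine ⟨t, lt_of_lt_of_le hN (Nat.pow_le_pow_right (by norm_num) (by omega)), ?_, ?_⟩
    · exact le_trans (Nat.pow_le_pow_right (by norm_num) htb)
        (Nat.ge_two_pow_of_testBit (mem_digits.1 hb))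
    · rw [hd] at hE
      rw [← E_div (R := R) s d t, ← fv_div (R := R) s d, hE]

/-! ### the computable test and the computable output -/

/-- Bool form of the test for the triple `(n, a, b)` -/
def testB (n a b : ℕ) : Bool :=
  leb 1 a && leb 1 b && leb (n + 1) (low a) && bex (fun N => ltb a (2 ^ N) && eqb (b % 2 ^ N) 0) b

/-- the Bool form of the output -/
def outB (R : ℕ → ℕ → ℕ → Bool) (n a b : ℕ) : Bool :=
  bex (fun v => eqb (v % 2) 1 &&
    bex (fun t => (ltb a (2 ^ t) && leb (2 ^ t) b) && eqb (E R (n + 1) t) v) b &&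
    ball (fun t => !(ltb a (2 ^ t) && leb (2 ^ t) b) || leb v (E R (n + 1) t)) b) (2 ^ (n + 1))

lemma testB_iff {n a b : ℕ} : testB n a b = true ↔
    1 ≤ a ∧ 1 ≤ b ∧ n + 1 ≤ low a ∧ ∃ N, a < 2 ^ N ∧ 2 ^ N ∣ b := by
  unfold testB
  rw [Bool.and_eq_true, Bool.and_eq_true, Bool.and_eq_true, leb_iff, leb_iff, leb_iff, bex_iff]
  constructor
  · rintro ⟨⟨⟨h1, h2⟩, h3⟩, N, _, h⟩
    rw [Bool.and_eq_true, ltb_iff, eqb_iff] at h
    exact ⟨h1, h2, h3, N, h.1, Nat.dvd_of_mod_eq_zero h.2⟩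
  · rintro ⟨h1, h2, h3, N, h4, h5⟩
    refine ⟨⟨⟨h1, h2⟩, h3⟩, N, ?_, ?_⟩
    · exact lt_of_lt_of_le Nat.lt_two_pow_self (Nat.le_of_dvd h2 h5)
    · rw [Bool.and_eq_true, ltb_iff, eqb_iff]
      exact ⟨h4, Nat.mod_eq_zero_of_dvd h5⟩

lemma outB_iff {R : ℕ → ℕ → ℕ → Bool} {n a b k : ℕ}
    (h1 : ∀ t, a < 2 ^ t → k ≤ E R (n + 1) t)
    (h2 : ∃ t, a < 2 ^ t ∧ 2 ^ t ≤ b ∧ E R (n + 1) t = k) :
    outB R n a b = true ↔ k % 2 = 1 := by
  unfold outB
  obtain ⟨t₀, ht₀, ht₀', hE⟩ := h2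
  have hb0 : t₀ < b := lt_of_lt_of_le Nat.lt_two_pow_self ht₀'
  rw [bex_iff]
  constructor
  · rintro ⟨v, _, h⟩
    rw [Bool.and_eq_true, Bool.and_eq_true, eqb_iff, bex_iff, ball_iff] at h
    obtain ⟨⟨h3, t, ht, h4⟩, h5⟩ := h
    rw [Bool.and_eq_true, Bool.and_eq_true, ltb_iff, leb_iff, eqb_iff] at h4
    have h6 := h1 t h4.1.1
    have h7 := h5 t₀ hb0
    rw [Bool.or_eq_true, Bool.not_eq_true', leb_iff] at h7
    have h8 : (ltb a (2 ^ t₀) && leb (2 ^ t₀) b) = true := by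
      rw [Bool.and_eq_true, ltb_iff, leb_iff]; exact ⟨ht₀, ht₀'⟩
    rw [h8] at h7
    rcases h7 with h7 | h7
    · exact absurd h7 (by simp)
    · have : v = k := by omega
      rw [← this]; exact h3
  · intro hk
    refine ⟨k, ?_, ?_⟩
    · rw [← hE]; exact E_lt (n + 1) t₀
    · rw [Bool.and_eq_true, Bool.and_eq_true, eqb_iff, bex_iff, ball_iff]
      refine ⟨⟨hk, t₀, hb0, ?_⟩, fun t _ => ?_⟩
      · rw [Bool.and_eq_true, Bool.and_eq_true, ltb_iff, leb_iff, eqb_iff]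
        exact ⟨⟨ht₀, ht₀'⟩, hE⟩
      · rw [Bool.or_eq_true, Bool.not_eq_true', leb_iff]
        by_cases h9 : a < 2 ^ t
        · exact Or.inr (h1 t h9)
        · left
          rw [Bool.eq_false_iff]
          intro h10
          rw [Bool.and_eq_true, ltb_iff] at h10
          exact h9 h10.1

section
attribute [local irreducible] bex ball cnt bsum ltb leb eqb low

lemma comp_pow {α : Type*} [Primcodable α] {f g : α → ℕ} (hf : Computable f) (hg : Computable g) :
    Computable (fun a => f a ^ g a) := by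
  have hp : Primrec₂ (fun x i : ℕ => x ^ i) := Primrec₂.unpaired'.1 Nat.Primrec.pow
  exact hp.to_comp.comp hf hg

lemma comp_mod {α : Type*} [Primcodable α] {f g : α → ℕ} (hf : Computable f) (hg : Computable g) :
    Computable (fun a => f a % g a) :=
  (Primrec.nat_mod.to_comp).comp hf hg

lemma comp_testB : Computable (fun p : ℕ × ℕ × ℕ => testB p.1 p.2.1 p.2.2) := by
  have f1 : Computable (fun p : ℕ × ℕ × ℕ => p.1) := Computable.fst
  have f2 : Computable (fun p : ℕ × ℕ × ℕ => p.2.1) := Computable.fst.comp Computable.snd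
  have f3 : Computable (fun p : ℕ × ℕ × ℕ => p.2.2) := Computable.snd.comp Computable.snd
  unfold testB
  refine comp_and (comp_and (comp_and ?_ ?_) ?_) ?_
  · exact comp_leb (Computable.const 1) f2
  · exact comp_leb (Computable.const 1) f3
  · exact comp_leb (comp_succ f1) (comp_low.comp f2)
  · refine comp_bex (f := fun (p : ℕ × ℕ × ℕ) N => ltb p.2.1 (2 ^ N) && eqb (p.2.2 % 2 ^ N) 0) ?_ f3
    refine comp_and (comp_ltb (f2.comp Computable.fst)
      (comp_pow (Computable.const 2) Computable.snd)) (comp_eqb ?_ (Computable.const 0))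
    exact comp_mod (f3.comp Computable.fst) (comp_pow (Computable.const 2) Computable.snd)

lemma comp_outB {R : ℕ → ℕ → ℕ → Bool}
    (hR : Computable (fun p : ℕ × ℕ × ℕ => R p.1 p.2.1 p.2.2)) :
    Computable (fun p : ℕ × ℕ × ℕ => outB R p.1 p.2.1 p.2.2) := by
  have hE := comp_E hR
  have f1 : Computable (fun p : ℕ × ℕ × ℕ => p.1) := Computable.fst
  have f2 : Computable (fun p : ℕ × ℕ × ℕ => p.2.1) := Computable.fst.comp Computable.snd
  have f3 : Computable (fun p : ℕ × ℕ × ℕ => p.2.2) := Computable.snd.comp Computable.snd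
  unfold outB
  refine comp_bex (f := fun (p : ℕ × ℕ × ℕ) v => eqb (v % 2) 1 &&
    bex (fun t => (ltb p.2.1 (2 ^ t) && leb (2 ^ t) p.2.2) && eqb (E R (p.1 + 1) t) v) p.2.2 &&
    ball (fun t => !(ltb p.2.1 (2 ^ t) && leb (2 ^ t) p.2.2) || leb v (E R (p.1 + 1) t)) p.2.2) ?_
    (comp_pow (Computable.const 2) (comp_succ f1))
  refine comp_and (comp_and ?_ ?_) ?_
  · exact comp_eqb (comp_mod Computable.snd (Computable.const 2)) (Computable.const 1)
  · refine comp_bex (α := (ℕ × ℕ × ℕ) × ℕ) (f := fun q t =>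
      (ltb q.1.2.1 (2 ^ t) && leb (2 ^ t) q.1.2.2) && eqb (E R (q.1.1 + 1) t) q.2) ?_
      (f3.comp Computable.fst)
    refine comp_and (comp_and ?_ ?_) (comp_eqb ?_ (Computable.snd.comp Computable.fst))
    · exact comp_ltb (f2.comp (Computable.fst.comp Computable.fst))
        (comp_pow (Computable.const 2) Computable.snd)
    · exact comp_leb (comp_pow (Computable.const 2) Computable.snd)
        (f3.comp (Computable.fst.comp Computable.fst))
    · exact hE.comp (comp_succ (f1.comp (Computable.fst.comp Computable.fst))) Computable.snd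
  · refine comp_ball (α := (ℕ × ℕ × ℕ) × ℕ) (f := fun q t =>
      !(ltb q.1.2.1 (2 ^ t) && leb (2 ^ t) q.1.2.2) || leb q.2 (E R (q.1.1 + 1) t)) ?_
      (f3.comp Computable.fst)
    refine comp_or (comp_not (comp_and ?_ ?_)) (comp_leb (Computable.snd.comp Computable.fst) ?_)
    · exact comp_ltb (f2.comp (Computable.fst.comp Computable.fst))
        (comp_pow (Computable.const 2) Computable.snd)
    · exact comp_leb (comp_pow (Computable.const 2) Computable.snd)
        (f3.comp (Computable.fst.comp Computable.fst))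
    · exact hE.comp (comp_succ (f1.comp (Computable.fst.comp Computable.fst))) Computable.snd

end

/-- the test as a function of one number -/
def testN (x : ℕ) : ℕ := 1 - (testB (Nat.unpair x).1 (Nat.unpair (Nat.unpair x).2).1
      (Nat.unpair (Nat.unpair x).2).2).toNat

/-- the output as a function of one number -/
def outN (R : ℕ → ℕ → ℕ → Bool) (x : ℕ) : ℕ :=
  (outB R (Nat.unpair x).1 (Nat.unpair (Nat.unpair x).2).1 (Nat.unpair (Nat.unpair x).2).2).toNat

section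
attribute [local irreducible] bex ball cnt bsum ltb leb eqb low testB outB

lemma comp_un : Computable (fun x : ℕ => ((Nat.unpair x).1, (Nat.unpair (Nat.unpair x).2).1,
      (Nat.unpair (Nat.unpair x).2).2)) :=
  Computable.pair (Computable.fst.comp Computable.unpair)
    (Computable.pair (Computable.fst.comp (Computable.unpair.comp
      (Computable.snd.comp Computable.unpair)))
      (Computable.snd.comp (Computable.unpair.comp (Computable.snd.comp Computable.unpair))))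

lemma comp_testN : Computable testN := by
  have h1 : Computable (fun x : ℕ => testB (Nat.unpair x).1 (Nat.unpair (Nat.unpair x).2).1
      (Nat.unpair (Nat.unpair x).2).2) :=
    Computable.comp (f := fun p : ℕ × ℕ × ℕ => testB p.1 p.2.1 p.2.2)
      (g := fun x : ℕ => ((Nat.unpair x).1, (Nat.unpair (Nat.unpair x).2).1,
      (Nat.unpair (Nat.unpair x).2).2)) comp_testB comp_un
  have h2 : Computable (fun x : ℕ => (testB (Nat.unpair x).1 (Nat.unpair (Nat.unpair x).2).1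
      (Nat.unpair (Nat.unpair x).2).2).toNat) :=
    Computable.comp (f := Bool.toNat) primrec_toNat.to_comp h1
  exact Computable₂.comp (f := fun a b : ℕ => a - b) Primrec.nat_sub.to_comp
    (Computable.const 1) h2

lemma comp_outN {R : ℕ → ℕ → ℕ → Bool}
    (hR : Computable (fun p : ℕ × ℕ × ℕ => R p.1 p.2.1 p.2.2)) : Computable (outN R) := by
  have h1 : Computable (fun x : ℕ => outB R (Nat.unpair x).1 (Nat.unpair (Nat.unpair x).2).1
      (Nat.unpair (Nat.unpair x).2).2) :=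
    Computable.comp (f := fun p : ℕ × ℕ × ℕ => outB R p.1 p.2.1 p.2.2)
      (g := fun x : ℕ => ((Nat.unpair x).1, (Nat.unpair (Nat.unpair x).2).1,
      (Nat.unpair (Nat.unpair x).2).2)) (comp_outB hR) comp_un
  exact Computable.comp (f := Bool.toNat) primrec_toNat.to_comp h1

end

lemma testN_pair (n a b : ℕ) :
    testN (Nat.pair n (Nat.pair a b)) = 1 - (testB n a b).toNat := by
  simp [testN]

lemma outN_pair (R : ℕ → ℕ → ℕ → Bool) (n a b : ℕ) :
    outN R (Nat.pair n (Nat.pair a b)) = (outB R n a b).toNat := by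
  simp [outN]

/-- Every total function `g` whose values are `0` or rich, and are divisible by arbitrarily large
powers of `2`, computes the set coded by `R`. -/
theorem reduce {O : Set (ℕ →. ℕ)} {R : ℕ → ℕ → ℕ → Bool}
    (hR : Computable (fun p : ℕ × ℕ × ℕ => R p.1 p.2.1 p.2.2)) {g χ : ℕ → ℕ} (hg : TR O g)
    (hrich : ∀ m, 1 ≤ g m → RichN (colN R) (g m))
    (hdiv : ∀ N, ∃ m, 1 ≤ g m ∧ 2 ^ N ∣ g m)
    (hχ : ∀ n, χ n = (fv R (n + 1)) % 2) : TR O χ := by
  refine search hg comp_testN (comp_outN hR) ?_ ?_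
  · intro n
    obtain ⟨a, ha, ha'⟩ := hdiv (n + 1)
    obtain ⟨b, hb, hb'⟩ := hdiv (g a)
    refine ⟨a, b, ?_⟩
    rw [testN_pair]
    have : testB n (g a) (g b) = true := by
      rw [testB_iff]
      refine ⟨ha, hb, ?_, g a, Nat.lt_two_pow_self, hb'⟩
      exact le_of_mem_digits ha' (mem_digits.2 (low_spec ha).1)
    rw [this]; rfl
  · intro n a b h
    rw [testN_pair] at h
    rw [outN_pair]
    have h1 : testB n (g a) (g b) = true := by
      by_contra hc
      rw [Bool.not_eq_true] at hc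
      rw [hc] at h
      exact absurd h (by simp)
    rw [testB_iff] at h1
    obtain ⟨ha, hb, hlow, N, hN, hN'⟩ := h1
    obtain ⟨d1, d2⟩ := decode ha hb (hrich a ha) (hrich b hb) hlow hN hN'
    have h3 := outB_iff d1 d2
    rw [hχ n]
    by_cases h4 : fv R (n + 1) % 2 = 1
    · rw [h3.2 h4, h4]; rfl
    · have h5 : outB R n (g a) (g b) = false := by
        rw [Bool.eq_false_iff]
        intro h6; exact h4 (h3.1 h6)
      rw [h5]
      have h6 : fv R (n + 1) % 2 = 0 := by omega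
      rw [h6]; rfl

end H94HT
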