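import Pool.Agent.Helper94.HT.Decode

/-! Rich numbers from a solution of Hindman's theorem, and from an apart solution for sums of at
most four elements. -/

namespace H94HT

open H81AE

open Classical in
/-- characteristic function -/
noncomputable def chi (S : Set ℕ) (n : ℕ) : ℕ := if n ∈ S then 1 else 0

lemma exists_residue {H : Set ℕ} (hH : H.Infinite) (N : ℕ) :
    ∃ r, {x ∈ H | x % 2 ^ N = r}.Infinite := by
  by_contra hc
  push Not at hc
  apply hH
  have : H ⊆ ⋃ r ∈ Finset.range (2 ^ N), {x ∈ H | x % 2 ^ N = r} := by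
    intro x hx
    rw [Set.mem_iUnion₂]
    exact ⟨x % 2 ^ N, Finset.mem_range.2 (Nat.mod_lt _ (by positivity)), hx, rfl⟩
  refine Set.Finite.subset ?_ this
  refine Set.Finite.biUnion (Finset.finite_toSet _) (fun r _ => ?_)
  exact hc r

lemma exists_block {H : Set ℕ} (hH : H.Infinite) (U : Finset ℕ) (N : ℕ) :
    ∃ G : Finset ℕ, (G : Set ℕ) ⊆ H ∧ Disjoint G U ∧ G.Nonempty ∧ 1 ≤ ∑ x ∈ G, x ∧
      2 ^ N ∣ ∑ x ∈ G, x := by
  classical
  have h1 : (H \ ((insert 0 U : Finset ℕ) : Set ℕ)).Infinite := hH.diff (Finset.finite_toSet _)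
  obtain ⟨r, hr⟩ := exists_residue h1 N
  obtain ⟨G, hG, hcard⟩ := hr.exists_subset_card_eq (2 ^ N)
  have hmem : ∀ x ∈ G, x ∈ H ∧ x ∉ U ∧ x ≠ 0 ∧ x % 2 ^ N = r := by
    intro x hx
    have := hG hx
    rw [Set.mem_sep_iff, Set.mem_diff, Finset.mem_coe, Finset.mem_insert, not_or] at this
    exact ⟨this.1.1, this.1.2.2, this.1.2.1, this.2⟩
  have hpos : 0 < 2 ^ N := by positivity
  have hne : G.Nonempty := by
    rw [← Finset.card_pos, hcard]; exact hpos
  refine ⟨G, fun x hx => (hmem x hx).1, ?_, hne, ?_, ?_⟩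
  · rw [Finset.disjoint_left]
    exact fun x hx => (hmem x hx).2.1
  · obtain ⟨x, hx⟩ := hne
    have h2 : x ≤ ∑ x ∈ G, x := Finset.single_le_sum (f := fun x => x) (fun _ _ => Nat.zero_le _) hx
    have := (hmem x hx).2.2.1
    omega
  · have h2 : ∑ x ∈ G, x = 2 ^ N * ∑ x ∈ G, (x / 2 ^ N) + G.card * r := by
      rw [Finset.mul_sum]
      have : G.card * r = ∑ x ∈ G, r := by rw [Finset.sum_const, smul_eq_mul]
      rw [this, ← Finset.sum_add_distrib]
      refine Finset.sum_congr rfl fun x hx => ?_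
      have h3 := (hmem x hx).2.2.2
      have h4 := Nat.div_add_mod x (2 ^ N)
      rw [h3] at h4
      exact h4.symm
    rw [h2, hcard]
    exact dvd_add (dvd_mul_right _ _) (dvd_mul_right _ _)

lemma richN_of_fs {c : ℕ → ℕ} {H : Set ℕ} (hH : H.Infinite) {i : ℕ}
    (hc : ∀ F : Finset ℕ, (F : Set ℕ) ⊆ H → F.Nonempty → c (∑ x ∈ F, x) = i) {F : Finset ℕ}
    (hF : (F : Set ℕ) ⊆ H) (hne : F.Nonempty) : RichN c (∑ x ∈ F, x) := by
  classical
  have hU : ∀ {G G' : Finset ℕ}, (G : Set ℕ) ⊆ H → (G' : Set ℕ) ⊆ H →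
      ((G ∪ G' : Finset ℕ) : Set ℕ) ⊆ H := by
    intro G G' h h'
    rw [Finset.coe_union]
    exact Set.union_subset h h'
  have key : ∀ {A B : Finset ℕ}, Disjoint A B → ∑ x ∈ A, x + ∑ x ∈ B, x = ∑ x ∈ A ∪ B, x :=
    fun h => (Finset.sum_union h).symm
  intro N₁
  obtain ⟨G₁, s₁, d₁, n₁, p₁, v₁⟩ := exists_block hH F N₁
  have e1 : ∑ x ∈ F, x + ∑ x ∈ G₁, x = ∑ x ∈ F ∪ G₁, x := (Finset.sum_union d₁.symm).symm
  refine ⟨∑ x ∈ G₁, x, p₁, v₁, ?_, fun N₂ => ?_⟩
  · rw [e1, hc _ (hU hF s₁) (hne.mono Finset.subset_union_left), hc F hF hne]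
  obtain ⟨G₂, s₂, d₂, n₂, p₂, v₂⟩ := exists_block hH (F ∪ G₁) N₂
  rw [Finset.disjoint_union_right] at d₂
  have e2 : ∑ x ∈ F, x + ∑ x ∈ G₂, x = ∑ x ∈ F ∪ G₂, x := (Finset.sum_union d₂.1.symm).symm
  have e12' : ∑ x ∈ G₁, x + ∑ x ∈ G₂, x = ∑ x ∈ G₁ ∪ G₂, x := (Finset.sum_union d₂.2.symm).symm
  have e12 : ∑ x ∈ F, x + (∑ x ∈ G₁, x + ∑ x ∈ G₂, x) = ∑ x ∈ F ∪ (G₁ ∪ G₂), x := by
    rw [e12']
    exact key (Finset.disjoint_union_right.2 ⟨d₁.symm, d₂.1.symm⟩)
  refine ⟨∑ x ∈ G₂, x, p₂, v₂, ?_, ?_, fun N₃ => ?_⟩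
  · rw [e2, hc _ (hU hF s₂) (hne.mono Finset.subset_union_left), hc F hF hne]
  · rw [e12, hc _ (hU hF (hU s₁ s₂)) (hne.mono Finset.subset_union_left), hc F hF hne]
  obtain ⟨G₃, s₃, d₃, n₃, p₃, v₃⟩ := exists_block hH (F ∪ (G₁ ∪ G₂)) N₃
  rw [Finset.disjoint_union_right, Finset.disjoint_union_right] at d₃
  have e3 : ∑ x ∈ F, x + ∑ x ∈ G₃, x = ∑ x ∈ F ∪ G₃, x := (Finset.sum_union d₃.1.symm).symm
  have e13' : ∑ x ∈ G₁, x + ∑ x ∈ G₃, x = ∑ x ∈ G₁ ∪ G₃, x :=
    (Finset.sum_union d₃.2.1.symm).symm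
  have e23' : ∑ x ∈ G₂, x + ∑ x ∈ G₃, x = ∑ x ∈ G₂ ∪ G₃, x :=
    (Finset.sum_union d₃.2.2.symm).symm
  have e123' : ∑ x ∈ G₁, x + ∑ x ∈ G₂, x + ∑ x ∈ G₃, x = ∑ x ∈ (G₁ ∪ G₂) ∪ G₃, x := by
    rw [e12']
    exact key (Finset.disjoint_union_left.2 ⟨d₃.2.1.symm, d₃.2.2.symm⟩)
  have e13 : ∑ x ∈ F, x + (∑ x ∈ G₁, x + ∑ x ∈ G₃, x) = ∑ x ∈ F ∪ (G₁ ∪ G₃), x := by
    rw [e13']
    exact key (Finset.disjoint_union_right.2 ⟨d₁.symm, d₃.1.symm⟩)
  have e23 : ∑ x ∈ F, x + (∑ x ∈ G₂, x + ∑ x ∈ G₃, x) = ∑ x ∈ F ∪ (G₂ ∪ G₃), x := by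
    rw [e23']
    exact key (Finset.disjoint_union_right.2 ⟨d₂.1.symm, d₃.1.symm⟩)
  have e123 : ∑ x ∈ F, x + (∑ x ∈ G₁, x + ∑ x ∈ G₂, x + ∑ x ∈ G₃, x) =
      ∑ x ∈ F ∪ ((G₁ ∪ G₂) ∪ G₃), x := by
    rw [e123']
    exact key (Finset.disjoint_union_right.2
      ⟨Finset.disjoint_union_right.2 ⟨d₁.symm, d₂.1.symm⟩, d₃.1.symm⟩)
  refine ⟨∑ x ∈ G₃, x, p₃, v₃, ?_, ?_, ?_, ?_⟩
  · rw [e3, hc _ (hU hF s₃) (hne.mono Finset.subset_union_left), hc F hF hne]
  · rw [e13, hc _ (hU hF (hU s₁ s₃)) (hne.mono Finset.subset_union_left), hc F hF hne]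
  · rw [e23, hc _ (hU hF (hU s₂ s₃)) (hne.mono Finset.subset_union_left), hc F hF hne]
  · rw [e123, hc _ (hU hF (hU (hU s₁ s₂) s₃)) (hne.mono Finset.subset_union_left), hc F hF hne]

/-- `H` is apart: the binary expansions of its elements are separated -/
def Apart (H : Set ℕ) : Prop := ∀ x ∈ H, ∀ y ∈ H, x < y → ∃ N, x < 2 ^ N ∧ 2 ^ N ∣ y

lemma apart_far {H : Set ℕ} (hH : H.Infinite) (ha : Apart H) (N B : ℕ) :
    ∃ y ∈ H, B < y ∧ 2 ^ N ∣ y := by
  obtain ⟨x, hx, hx'⟩ := hH.exists_gt (2 ^ N + B)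
  obtain ⟨y, hy, hy'⟩ := hH.exists_gt x
  have hpos : 0 < 2 ^ N := by positivity
  refine ⟨y, hy, by omega, ?_⟩
  obtain ⟨M, hM, hM'⟩ := ha x hx y hy hy'
  apply dvd_of_le_pow hM'
  have : 2 ^ N < 2 ^ M := by omega
  exact ((Nat.pow_lt_pow_iff_right (by norm_num)).1 this).le

lemma richN_of_apart {c : ℕ → ℕ} {H : Set ℕ} (hH : H.Infinite) (ha : Apart H) {i : ℕ}
    (hc : ∀ F : Finset ℕ, (F : Set ℕ) ⊆ H → F.Nonempty → F.card ≤ 4 → c (∑ x ∈ F, x) = i)
    {n : ℕ} (hn : n ∈ H) : RichN c n := by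
  classical
  have h1 : ∀ a ∈ H, c a = i := by
    intro a ha
    have := hc {a} (by simpa using ha) (Finset.singleton_nonempty a) (by simp)
    simpa using this
  have h2 : ∀ a ∈ H, ∀ b ∈ H, a < b → c (a + b) = i := by
    intro a ha b hb hab
    have := hc {a, b} (by
      intro x hx
      rw [Finset.mem_coe, Finset.mem_insert, Finset.mem_singleton] at hx
      rcases hx with rfl | rfl <;> assumption) ⟨a, by simp⟩ (by
        have := Finset.card_insert_le a ({b} : Finset ℕ)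
        simp only [Finset.card_singleton] at this
        omega)
    rw [Finset.sum_pair (by omega)] at this
    exact this
  have h3 : ∀ a ∈ H, ∀ b ∈ H, ∀ d ∈ H, a < b → b < d → c (a + (b + d)) = i := by
    intro a ha b hb d hd hab hbd
    have := hc {a, b, d} (by
      intro x hx
      rw [Finset.mem_coe, Finset.mem_insert, Finset.mem_insert, Finset.mem_singleton] at hx
      rcases hx with rfl | rfl | rfl <;> assumption) ⟨a, by simp⟩ (by
        have h4 := Finset.card_insert_le a ({b, d} : Finset ℕ)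
        have h5 := Finset.card_insert_le b ({d} : Finset ℕ)
        simp only [Finset.card_singleton] at h5
        omega)
    rw [Finset.sum_insert (by simp; omega), Finset.sum_pair (by omega)] at this
    exact this
  have h4 : ∀ a ∈ H, ∀ b ∈ H, ∀ d ∈ H, ∀ f ∈ H, a < b → b < d → d < f →
      c (a + (b + d + f)) = i := by
    intro a ha b hb d hd f hf hab hbd hdf
    have := hc {a, b, d, f} (by
      intro x hx
      rw [Finset.mem_coe, Finset.mem_insert, Finset.mem_insert, Finset.mem_insert,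
        Finset.mem_singleton] at hx
      rcases hx with rfl | rfl | rfl | rfl <;> assumption) ⟨a, by simp⟩ (by
        have h4 := Finset.card_insert_le a ({b, d, f} : Finset ℕ)
        have h5 := Finset.card_insert_le b ({d, f} : Finset ℕ)
        have h6 := Finset.card_insert_le d ({f} : Finset ℕ)
        simp only [Finset.card_singleton] at h6
        omega)
    rw [Finset.sum_insert (by simp; omega), Finset.sum_insert (by simp; omega),
      Finset.sum_pair (by omega)] at this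
    rw [add_assoc b d f]
    exact this
  intro N₁
  obtain ⟨m₁, i₁, l₁, v₁⟩ := apart_far hH ha N₁ n
  refine ⟨m₁, by omega, v₁, ?_, fun N₂ => ?_⟩
  · rw [h2 n hn m₁ i₁ l₁, h1 n hn]
  obtain ⟨m₂, i₂, l₂, v₂⟩ := apart_far hH ha N₂ m₁
  refine ⟨m₂, by omega, v₂, ?_, ?_, fun N₃ => ?_⟩
  · rw [h2 n hn m₂ i₂ (by omega), h1 n hn]
  · rw [h3 n hn m₁ i₁ m₂ i₂ l₁ l₂, h1 n hn]
  obtain ⟨m₃, i₃, l₃, v₃⟩ := apart_far hH ha N₃ m₂
  refine ⟨m₃, by omega, v₃, ?_, ?_, ?_, ?_⟩
  · rw [h2 n hn m₃ i₃ (by omega), h1 n hn]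
  · rw [h3 n hn m₁ i₁ m₃ i₃ l₁ (by omega), h1 n hn]
  · rw [h3 n hn m₂ i₂ m₃ i₃ (by omega) l₃, h1 n hn]
  · rw [h4 n hn m₁ i₁ m₂ i₂ m₃ i₃ l₁ l₂ l₃, h1 n hn]

/-! ### the two enumerations -/

/-- the sum of the elements of `H` among the digits of `m` -/
noncomputable def sumH (H : Set ℕ) (m : ℕ) : ℕ :=
  bsum (fun y => (m.testBit y).toNat * (chi H y * y)) m

lemma sumH_eq (H : Set ℕ) (m : ℕ) :
    ∃ F : Finset ℕ, (F : Set ℕ) ⊆ H ∧ (∀ x ∈ digits m, x ∈ H → x ∈ F) ∧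
      (∀ x ∈ F, x ∈ digits m) ∧ sumH H m = ∑ x ∈ F, x := by
  classical
  refine ⟨(digits m).filter (fun x => x ∈ H), ?_, ?_, ?_, ?_⟩
  · intro x hx
    rw [Finset.mem_coe, Finset.mem_filter] at hx
    exact hx.2
  · intro x hx hx'
    rw [Finset.mem_filter]
    exact ⟨hx, hx'⟩
  · intro x hx
    rw [Finset.mem_filter] at hx
    exact hx.1
  · unfold sumH
    rw [bsum_eq, Finset.sum_filter]
    unfold digits
    rw [Finset.sum_filter]
    refine Finset.sum_congr rfl fun x _ => ?_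
    unfold chi
    by_cases h1 : m.testBit x = true
    · rw [if_pos h1, h1]
      by_cases h2 : x ∈ H
      · rw [if_pos h2, if_pos h2]; simp
      · rw [if_neg h2, if_neg h2]; simp
    · rw [if_neg h1]
      rw [Bool.not_eq_true] at h1
      rw [h1]; simp

lemma exists_mask (F : Finset ℕ) : ∃ m, digits m = F := by
  classical
  induction F using Finset.induction_on_max with
  | empty => exact ⟨0, by simp [digits]⟩
  | insert a s ha ih =>
    obtain ⟨m, hm⟩ := ih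
    refine ⟨m + 2 ^ a, ?_⟩
    have hlt : m < 2 ^ a := by
      apply Nat.lt_pow_two_of_testBit
      intro i hi
      rw [Bool.eq_false_iff]
      intro hc
      rw [← mem_digits, hm] at hc
      have := ha i hc
      omega
    rw [digits_add hlt dvd_rfl, hm]
    have : digits (2 ^ a) = {a} := by
      ext i
      rw [mem_digits, Nat.testBit_two_pow, Finset.mem_singleton, decide_eq_true_eq]
      exact eq_comm
    rw [this, Finset.union_comm]
    rfl

lemma comp_toNatMul : Computable (fun x : ℕ =>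
    (Nat.unpair (Nat.unpair (Nat.unpair x).1).2).2 +
      ((Nat.unpair (Nat.unpair x).1).1.testBit (Nat.unpair (Nat.unpair (Nat.unpair x).1).2).1).toNat
        * ((Nat.unpair x).2 * (Nat.unpair (Nat.unpair (Nat.unpair x).1).2).1)) := by
  have u1 : Computable (fun x : ℕ => (Nat.unpair x).1) := Computable.fst.comp Computable.unpair
  have u2 : Computable (fun x : ℕ => (Nat.unpair x).2) := Computable.snd.comp Computable.unpair
  have ua : Computable (fun x : ℕ => (Nat.unpair (Nat.unpair x).1).1) := u1.comp u1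
  have uyi : Computable (fun x : ℕ => (Nat.unpair (Nat.unpair x).1).2) := u2.comp u1
  have uy : Computable (fun x : ℕ => (Nat.unpair (Nat.unpair (Nat.unpair x).1).2).1) := u1.comp uyi
  have ui : Computable (fun x : ℕ => (Nat.unpair (Nat.unpair (Nat.unpair x).1).2).2) := u2.comp uyi
  have ht : Computable (fun x : ℕ =>
      ((Nat.unpair (Nat.unpair x).1).1.testBit
        (Nat.unpair (Nat.unpair (Nat.unpair x).1).2).1).toNat) :=
    Computable.comp (f := Bool.toNat) primrec_toNat.to_comp (comp_testBit.comp ua uy)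
  have hm : Computable (fun x : ℕ =>
      (Nat.unpair x).2 * (Nat.unpair (Nat.unpair (Nat.unpair x).1).2).1) :=
    Computable₂.comp (f := fun a b : ℕ => a * b) Primrec.nat_mul.to_comp u2 uy
  exact Computable₂.comp (f := fun a b : ℕ => a + b) Primrec.nat_add.to_comp ui
    (Computable₂.comp (f := fun a b : ℕ => a * b) Primrec.nat_mul.to_comp ht hm)

lemma TR_sumH {O : Set (ℕ →. ℕ)} {H : Set ℕ} (h : TR O (chi H)) : TR O (sumH H) := by
  have hl : TR O (fun x => (Nat.unpair x).1) := Nat.RecursiveIn.left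
  have hr : TR O (fun x => (Nat.unpair x).2) := Nat.RecursiveIn.right
  have h1 : TR O (fun q => Nat.pair q (chi H (Nat.unpair (Nat.unpair q).2).1)) :=
    TR.id.pair (h.comp (hl.comp hr))
  have h2 := (TR.of_comp (O := O) comp_toNatMul).comp h1
  have h0 : TR O (fun _ => 0) := TR.of_comp (Computable.const 0)
  have h3 := (TR.prec h0 h2).comp (TR.id.pair TR.id)
  refine h3.of_eq (fun m => ?_)
  simp only [Nat.unpair_pair]
  unfold sumH
  rfl

lemma TR_mulH {O : Set (ℕ →. ℕ)} {H : Set ℕ} (h : TR O (chi H)) :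
    TR O (fun m => chi H m * m) := by
  have hm : Computable (fun x : ℕ => (Nat.unpair x).1 * (Nat.unpair x).2) :=
    Computable₂.comp (f := fun a b : ℕ => a * b) Primrec.nat_mul.to_comp
      (Computable.fst.comp Computable.unpair) (Computable.snd.comp Computable.unpair)
  refine ((TR.of_comp (O := O) hm).comp (h.pair TR.id)).of_eq (fun m => ?_)
  simp only [Nat.unpair_pair]

/-- solutions of Hindman's theorem compute the coded set -/
theorem reduce_fs {R : ℕ → ℕ → ℕ → Bool}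
    (hR : Computable (fun p : ℕ × ℕ × ℕ => R p.1 p.2.1 p.2.2)) {H : Set ℕ} (hH : H.Infinite)
    {i : Fin 3} (hc : ∀ F : Finset ℕ, (F : Set ℕ) ⊆ H → F.Nonempty → col R (∑ x ∈ F, x) = i)
    {χ : ℕ → ℕ} (hχ : ∀ n, χ n = (fv R (n + 1)) % 2) :
    TR {fun n => Part.some (chi H n)} χ := by
  have hc' : ∀ F : Finset ℕ, (F : Set ℕ) ⊆ H → F.Nonempty → colN R (∑ x ∈ F, x) = i.val :=
    fun F h1 h2 => congrArg Fin.val (hc F h1 h2)
  refine reduce hR (TR_sumH TR.oracle) ?_ ?_ hχ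
  · intro m hm
    obtain ⟨F, hF, _, _, hF'⟩ := sumH_eq H m
    rw [hF'] at hm ⊢
    have hne : F.Nonempty := by
      rw [Finset.nonempty_iff_ne_empty]
      rintro rfl
      simp at hm
    exact richN_of_fs hH hc' hF hne
  · intro N
    obtain ⟨G, hG, _, _, hG1, hG2⟩ := exists_block hH ∅ N
    obtain ⟨m, hm⟩ := exists_mask G
    obtain ⟨F, hF, h3, h4, hF'⟩ := sumH_eq H m
    have hFG : F = G := by
      ext x
      constructor
      · intro hx; rw [← hm]; exact h4 x hx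
      · intro hx; exact h3 x (by rw [hm]; exact hx) (hG hx)
    refine ⟨m, ?_, ?_⟩
    · rw [hF', hFG]; exact hG1
    · rw [hF', hFG]; exact hG2

/-- apart solutions for sums of at most four elements compute the coded set -/
theorem reduce_apart {R : ℕ → ℕ → ℕ → Bool}
    (hR : Computable (fun p : ℕ × ℕ × ℕ => R p.1 p.2.1 p.2.2)) {H : Set ℕ} (hH : H.Infinite)
    (ha : Apart H) {i : Fin 3}
    (hc : ∀ F : Finset ℕ, (F : Set ℕ) ⊆ H → F.Nonempty → F.card ≤ 4 → col R (∑ x ∈ F, x) = i)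
    {χ : ℕ → ℕ} (hχ : ∀ n, χ n = (fv R (n + 1)) % 2) :
    TR {fun n => Part.some (chi H n)} χ := by
  classical
  have hc' : ∀ F : Finset ℕ, (F : Set ℕ) ⊆ H → F.Nonempty → F.card ≤ 4 →
      colN R (∑ x ∈ F, x) = i.val := fun F h1 h2 h3 => congrArg Fin.val (hc F h1 h2 h3)
  refine reduce hR (TR_mulH TR.oracle) ?_ ?_ hχ
  · intro m hm
    by_cases h : m ∈ H
    · have e : chi H m * m = m := by unfold chi; rw [if_pos h, one_mul]
      rw [e]
      exact richN_of_apart hH ha hc' h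
    · exfalso
      have e : chi H m * m = 0 := by unfold chi; rw [if_neg h, zero_mul]
      omega
  · intro N
    obtain ⟨y, hy, hy1, hy2⟩ := apart_far hH ha N 0
    have e : chi H y * y = y := by unfold chi; rw [if_pos hy, one_mul]
    exact ⟨y, by rw [e]; omega, by rw [e]; exact hy2⟩

end H94HT
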