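import Pool.Agent.Helper94.HT.Comb
import Pool.Agent.H81AE.Digits

/-! Labels on a binary tree: the lim inf of the labels of level `s` codes the truth values of the
first `s` statements `∀ b, ∃ c, R i b c`. -/

namespace H94HT

open H81AE

/-- since the last visit of the current node `P t`, the statement `s` has progressed -/
def good (R : ℕ → ℕ → ℕ → Bool) (P : ℕ → ℕ) (s t : ℕ) : Bool :=
  bex (fun u => inc (R s) u && ball (fun t' => ltb t' u || !(eqb (P t') (P t))) t) (t + 1)

lemma good_iff {R : ℕ → ℕ → ℕ → Bool} {P : ℕ → ℕ} {s t : ℕ} :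
    good R P s t = true ↔ ∃ u, u ≤ t ∧ inc (R s) u = true ∧ ∀ t', u ≤ t' → t' < t → P t' ≠ P t := by
  unfold good
  rw [bex_iff]
  constructor
  · rintro ⟨u, hu, h⟩
    rw [Bool.and_eq_true, ball_iff] at h
    refine ⟨u, by omega, h.1, fun t' h1 h2 => ?_⟩
    have h3 := h.2 t' h2
    rw [Bool.or_eq_true, ltb_iff, Bool.not_eq_true'] at h3
    rcases h3 with h3 | h3
    · omega
    · intro h4
      rw [eqb_iff.2 h4] at h3
      exact absurd h3 (by simp)
  · rintro ⟨u, hu, h1, h2⟩
    refine ⟨u, by omega, ?_⟩
    rw [Bool.and_eq_true, ball_iff]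
    refine ⟨h1, fun t' ht' => ?_⟩
    rw [Bool.or_eq_true, ltb_iff, Bool.not_eq_true']
    by_cases h3 : t' < u
    · exact Or.inl h3
    · right
      have h4 := h2 t' (by omega) ht'
      rw [Bool.eq_false_iff]
      intro h5
      exact h4 (eqb_iff.1 h5)

/-- the label of level `s` at time `t` -/
def E (R : ℕ → ℕ → ℕ → Bool) : ℕ → ℕ → ℕ
  | 0, _ => 0
  | s + 1, t => 2 * E R s t + (1 - (good R (E R s) s t).toNat)

open Classical in
/-- the code of the truth values of the first `s` statements -/
noncomputable def fv (R : ℕ → ℕ → ℕ → Bool) : ℕ → ℕ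
  | 0 => 0
  | s + 1 => 2 * fv R s + (if ∀ b, ∃ c, R s b c = true then 0 else 1)

variable {R : ℕ → ℕ → ℕ → Bool}

lemma E_succ (s t : ℕ) :
    E R (s + 1) t = 2 * E R s t + (1 - (good R (E R s) s t).toNat) := rfl

lemma E_succ_good {s t : ℕ} (h : good R (E R s) s t = true) : E R (s + 1) t = 2 * E R s t := by
  rw [E_succ, h]; rfl

lemma E_succ_bad {s t : ℕ} (h : good R (E R s) s t = false) :
    E R (s + 1) t = 2 * E R s t + 1 := by
  rw [E_succ, h]; rfl

lemma E_succ_cases (s t : ℕ) :
    E R (s + 1) t = 2 * E R s t ∨ E R (s + 1) t = 2 * E R s t + 1 := by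
  by_cases h : good R (E R s) s t = true
  · exact Or.inl (E_succ_good h)
  · exact Or.inr (E_succ_bad (by simpa using h))

lemma E_lt (s t : ℕ) : E R s t < 2 ^ s := by
  induction s with
  | zero => simp [E]
  | succ s ih =>
    rw [pow_succ]
    rcases E_succ_cases (R := R) s t with h | h <;> omega

lemma E_div (s d t : ℕ) : E R (s + d) t / 2 ^ d = E R s t := by
  induction d with
  | zero => simp
  | succ d ih =>
    rw [pow_succ', ← Nat.div_div_eq_div_mul, ← add_assoc]
    have : E R (s + d + 1) t / 2 = E R (s + d) t := by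
      rcases E_succ_cases (R := R) (s + d) t with h | h <;> omega
    rw [this, ih]

lemma fv_div (s d : ℕ) : fv R (s + d) / 2 ^ d = fv R s := by
  induction d with
  | zero => simp
  | succ d ih =>
    rw [pow_succ', ← Nat.div_div_eq_div_mul, ← add_assoc]
    have : fv R (s + d + 1) / 2 = fv R (s + d) := by
      rw [fv]; split <;> omega
    rw [this, ih]

lemma fv_odd_iff (n : ℕ) : fv R (n + 1) % 2 = 1 ↔ ¬ ∀ b, ∃ c, R n b c = true := by
  rw [fv]
  split
  · rename_i h
    constructor
    · intro h1; omega
    · intro h1; exact absurd h h1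
  · rename_i h
    constructor
    · intro _; exact h
    · intro _; omega

theorem main (s : ℕ) : (∀ T, ∃ t, T ≤ t ∧ E R s t = fv R s) ∧ (∃ T, ∀ t, T ≤ t → fv R s ≤ E R s t) := by
  classical
  induction s with
  | zero => exact ⟨fun T => ⟨T, le_rfl, rfl⟩, ⟨0, fun t _ => Nat.zero_le _⟩⟩
  | succ s ih =>
    obtain ⟨h1, T₀, h2⟩ := ih
    by_cases hR : ∀ b, ∃ c, R s b c = true
    · have hf : fv R (s + 1) = 2 * fv R s := by
        rw [fv, if_pos hR]; rfl
      constructor
      · intro T
        obtain ⟨u, hu, hu'⟩ := inc_inf.1 hR T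
        have hex : ∃ t, u ≤ t ∧ E R s t = fv R s := h1 u
        obtain ⟨h3, h4⟩ := Nat.find_spec hex
        refine ⟨Nat.find hex, by omega, ?_⟩
        have hg : good R (E R s) s (Nat.find hex) = true := by
          rw [good_iff]
          refine ⟨u, h3, hu', fun t' ht' ht'' hc => ?_⟩
          exact Nat.find_min hex ht'' ⟨ht', hc.trans h4⟩
        rw [E_succ_good hg, h4, hf]
      · refine ⟨T₀, fun t ht => ?_⟩
        have h3 := h2 t ht
        rcases E_succ_cases (R := R) s t with h | h <;> omega
    · have hf : fv R (s + 1) = 2 * fv R s + 1 := by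
        rw [fv, if_neg hR]
      obtain ⟨U, hU⟩ : ∃ U, ∀ u, U ≤ u → inc (R s) u = false := by
        by_contra hc
        push Not at hc
        apply hR
        rw [inc_inf]
        intro T
        obtain ⟨t, ht, ht'⟩ := hc T
        exact ⟨t, ht, by simpa using ht'⟩
      obtain ⟨t₁, ht₁, ht₁'⟩ := h1 U
      have hbad : ∀ t, t₁ < t → E R s t = fv R s → good R (E R s) s t = false := by
        intro t ht hE
        rw [Bool.eq_false_iff]
        intro hg
        rw [good_iff] at hg
        obtain ⟨u, hu, hu', hu''⟩ := hg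
        by_cases h3 : U ≤ u
        · rw [hU u h3] at hu'
          exact absurd hu' (by simp)
        · exact hu'' t₁ (by omega) ht (by rw [ht₁', hE])
      constructor
      · intro T
        obtain ⟨t, ht, ht'⟩ := h1 (T + t₁ + 1)
        refine ⟨t, by omega, ?_⟩
        rw [E_succ_bad (hbad t (by omega) ht'), ht', hf]
      · refine ⟨T₀ + t₁ + 1, fun t ht => ?_⟩
        have h3 := h2 t (by omega)
        rcases Nat.lt_or_ge (fv R s) (E R s t) with h4 | h4
        · rcases E_succ_cases (R := R) s t with h | h <;> omega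
        · have h5 : E R s t = fv R s := by omega
          rw [E_succ_bad (hbad t (by omega) h5), h5, hf]

theorem exists_finalL (s : ℕ) : ∃ z, FinalL (E R s) (fv R s) z := by
  classical
  obtain ⟨h1, h2⟩ := main (R := R) s
  refine ⟨Nat.find h2, h1, Nat.find_spec h2, ?_⟩
  by_cases h0 : Nat.find h2 = 0
  · exact Or.inl h0
  · right
    have hlt : Nat.find h2 - 1 < Nat.find h2 := by omega
    have := Nat.find_min h2 hlt
    push Not at this
    obtain ⟨t, ht1, ht2⟩ := this
    rcases Nat.lt_or_ge t (Nat.find h2) with h | h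
    · have : t = Nat.find h2 - 1 := by omega
      rw [← this]; exact ht2
    · have := Nat.find_spec h2 t h
      omega

/-! ### computability -/

/-- one step of the course of values recursion; `s`, `t` are the coordinates -/
def stepST (R : ℕ → ℕ → ℕ → Bool) (l : List ℕ) (s t : ℕ) : ℕ :=
  bif eqb s 0 then 0
  else 2 * (l[Nat.pair (s - 1) t]?).getD 0 +
    (1 - (bex (fun u => inc (R (s - 1)) u &&
      ball (fun t' => ltb t' u ||
        !(eqb ((l[Nat.pair (s - 1) t']?).getD 0) ((l[Nat.pair (s - 1) t]?).getD 0))) t)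
          (t + 1)).toNat)

lemma ball_congr {f g : ℕ → Bool} {n : ℕ} (h : ∀ i < n, f i = g i) : ball f n = ball g n := by
  induction n with
  | zero => rfl
  | succ n ih => rw [ball_succ, ball_succ, ih (fun i hi => h i (by omega)), h n (by omega)]

lemma bex_congr {f g : ℕ → Bool} {n : ℕ} (h : ∀ i < n, f i = g i) : bex f n = bex g n := by
  induction n with
  | zero => rfl
  | succ n ih => rw [bex_succ, bex_succ, ih (fun i hi => h i (by omega)), h n (by omega)]

lemma getD_range {f : ℕ → ℕ} {n m : ℕ} (h : m < n) :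
    (((List.range n).map f)[m]?).getD 0 = f m := by
  rw [List.getElem?_map, List.getElem?_range h]
  rfl

lemma step_eq (n : ℕ) :
    stepST R ((List.range n).map (fun m => E R (Nat.unpair m).1 (Nat.unpair m).2))
      (Nat.unpair n).1 (Nat.unpair n).2 = E R (Nat.unpair n).1 (Nat.unpair n).2 := by
  obtain ⟨s, t, hst⟩ : ∃ s t, n = Nat.pair s t := ⟨(Nat.unpair n).1, (Nat.unpair n).2, by simp⟩
  subst hst
  simp only [Nat.unpair_pair]
  rcases s with _ | s
  · simp [stepST, eqb, E]
  · have key : ∀ t', t' ≤ t → ((((List.range (Nat.pair (s + 1) t)).map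
        (fun m => E R (Nat.unpair m).1 (Nat.unpair m).2))[Nat.pair s t']?).getD 0) = E R s t' := by
      intro t' ht'
      rw [getD_range]
      · simp
      · have h1 : Nat.pair s t' ≤ Nat.pair s t := by
          rcases Nat.lt_or_ge t' t with h | h
          · exact (Nat.pair_lt_pair_right s h).le
          · have : t' = t := by omega
            rw [this]
        exact lt_of_le_of_lt h1 (Nat.pair_lt_pair_left t (Nat.lt_succ_self s))
    unfold stepST
    have e0 : eqb (s + 1) 0 = false := by
      rw [Bool.eq_false_iff]; intro h; rw [eqb_iff] at h; omega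
    rw [e0, cond_false, Nat.add_sub_cancel, key t le_rfl, E_succ]
    congr 3
    unfold good
    refine bex_congr fun u _ => ?_
    congr 1
    refine ball_congr fun t' ht' => ?_
    rw [key t' (by omega)]

section
attribute [local irreducible] bex ball cnt bsum inc ltb eqb leb

lemma comp_getD {α : Type*} [Primcodable α] {l : α → List ℕ} {g : α → ℕ} (hl : Computable l)
    (hg : Computable g) : Computable (fun a => ((l a)[g a]?).getD 0) :=
  Computable.option_getD (Computable.list_getElem?.comp hl hg) (Computable.const 0)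

lemma comp_step (hR : Computable (fun p : ℕ × ℕ × ℕ => R p.1 p.2.1 p.2.2)) :
    Computable (fun p : List ℕ × ℕ × ℕ => stepST R p.1 p.2.1 p.2.2) := by
  have hpair : Computable₂ Nat.pair := Primrec₂.natPair.to_comp
  have fl : Computable (fun p : List ℕ × ℕ × ℕ => p.1) := Computable.fst
  have fs : Computable (fun p : List ℕ × ℕ × ℕ => p.2.1) := Computable.fst.comp Computable.snd
  have ft : Computable (fun p : List ℕ × ℕ × ℕ => p.2.2) := Computable.snd.comp Computable.snd
  have fs1 := comp_pred fs
  have h1 : Computable (fun p : List ℕ × ℕ × ℕ => (p.1[Nat.pair (p.2.1 - 1) p.2.2]?).getD 0) :=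
    comp_getD fl (hpair.comp fs1 ft)
  have h2 : Computable (fun p : List ℕ × ℕ × ℕ => bex (fun u => inc (R (p.2.1 - 1)) u &&
      ball (fun t' => ltb t' u ||
        !(eqb ((p.1[Nat.pair (p.2.1 - 1) t']?).getD 0) ((p.1[Nat.pair (p.2.1 - 1) p.2.2]?).getD 0)))
          p.2.2) (p.2.2 + 1)) := by
    refine comp_bex (α := List ℕ × ℕ × ℕ) (f := fun p u => inc (R (p.2.1 - 1)) u &&
      ball (fun t' => ltb t' u ||
        !(eqb ((p.1[Nat.pair (p.2.1 - 1) t']?).getD 0) ((p.1[Nat.pair (p.2.1 - 1) p.2.2]?).getD 0)))
          p.2.2) ?_ (comp_succ ft)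
    refine comp_and ?_ ?_
    · refine comp_inc (α := (List ℕ × ℕ × ℕ) × ℕ) (R := fun q => R (q.1.2.1 - 1))
        (g := fun q => q.2) ?_ Computable.snd
      have h := Computable.comp (f := fun p : ℕ × ℕ × ℕ => R p.1 p.2.1 p.2.2)
        (g := fun q : ((List ℕ × ℕ × ℕ) × ℕ) × ℕ × ℕ => (q.1.1.2.1 - 1, q.2.1, q.2.2)) hR
        (Computable.pair (fs1.comp (Computable.fst.comp Computable.fst))
          (Computable.pair (Computable.fst.comp Computable.snd)
            (Computable.snd.comp Computable.snd)))
      exact h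
    · refine comp_ball (α := (List ℕ × ℕ × ℕ) × ℕ) (f := fun q t' => ltb t' q.2 ||
        !(eqb ((q.1.1[Nat.pair (q.1.2.1 - 1) t']?).getD 0)
          ((q.1.1[Nat.pair (q.1.2.1 - 1) q.1.2.2]?).getD 0))) ?_ (ft.comp Computable.fst)
      refine comp_or (comp_ltb Computable.snd (Computable.snd.comp Computable.fst))
        (comp_not (comp_eqb ?_ ?_))
      · exact comp_getD (fl.comp (Computable.fst.comp Computable.fst))
          (hpair.comp (fs1.comp (Computable.fst.comp Computable.fst)) Computable.snd)
      · exact h1.comp (Computable.fst.comp Computable.fst)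
  have h3 : Computable (fun p : List ℕ × ℕ × ℕ => 2 * (p.1[Nat.pair (p.2.1 - 1) p.2.2]?).getD 0 +
      (1 - (bex (fun u => inc (R (p.2.1 - 1)) u &&
      ball (fun t' => ltb t' u ||
        !(eqb ((p.1[Nat.pair (p.2.1 - 1) t']?).getD 0) ((p.1[Nat.pair (p.2.1 - 1) p.2.2]?).getD 0)))
          p.2.2) (p.2.2 + 1)).toNat)) :=
    (Primrec.nat_add.to_comp).comp ((Primrec.nat_mul.to_comp).comp (Computable.const 2) h1)
      ((Primrec.nat_sub.to_comp).comp (Computable.const 1) (primrec_toNat.to_comp.comp h2))
  exact Computable.cond (comp_eqb fs (Computable.const 0)) (Computable.const 0) h3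

end

theorem comp_E (hR : Computable (fun p : ℕ × ℕ × ℕ => R p.1 p.2.1 p.2.2)) :
    Computable₂ (E R) := by
  have hg : Computable₂ (fun (_ : Unit) (l : List ℕ) => some
      (stepST R l (Nat.unpair l.length).1 (Nat.unpair l.length).2)) := by
    have hl : Computable (fun p : Unit × List ℕ => Nat.unpair p.2.length) :=
      Computable.unpair.comp (Computable.list_length.comp Computable.snd)
    have h := Computable.comp (f := fun p : List ℕ × ℕ × ℕ => stepST R p.1 p.2.1 p.2.2)
      (g := fun q : Unit × List ℕ => (q.2, (Nat.unpair q.2.length).1, (Nat.unpair q.2.length).2))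
      (comp_step hR) (Computable.pair Computable.snd
        (Computable.pair (Computable.fst.comp hl) (Computable.snd.comp hl)))
    exact Computable.option_some.comp h
  have h := Computable.nat_strong_rec
    (fun (_ : Unit) (m : ℕ) => E R (Nat.unpair m).1 (Nat.unpair m).2) hg (by
      intro _ n
      simp only [List.length_map, List.length_range]
      rw [step_eq])
  have h2 := Computable.comp (f := fun p : Unit × ℕ => E R (Nat.unpair p.2).1 (Nat.unpair p.2).2)
    (g := fun q : ℕ × ℕ => ((), Nat.pair q.1 q.2)) h (Computable.pair (Computable.const ())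
      (Primrec₂.natPair.to_comp))
  have h3 : Computable (fun a : ℕ × ℕ => E R a.1 a.2) := by simpa using h2
  exact h3

end H94HT
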